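import Pool.Agent.Helper88.QT.St4

/-!
# Project QT, module BDX: constants at a point
-/

set_option autoImplicit false

open MeasureTheory Matrix Set Topology Filter
open scoped ENNReal ComplexConjugate

namespace Pool.Agent.Helper98.QT

open Pool.Agent.Helper88.QT
open Pool.Agent.Helper86.QA (KD ActOn FDOn CF ab rX Pt up ga mb ch oo)
open Pool.Agent.Helper85.QT (Ann Cls Cof Mlt Fm th Bnd DTub EBal Crs cen pq gp Tg TT Sm ff)
open Pool.Agent.Helper35.PM (ent IsQF)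

/-- Kleinian data are symmetric in the two domains. -/
lemma bdx_symm {Γ : Type} [Group Γ] {ρ : Γ →* Pool.Agent.Helper86.QA.SL} {A B : Set ℂ} (h : KD ρ A B) : KD ρ B A where
  tf := h.tf
  disc := h.disc
  opA := h.opB
  opB := h.opA
  neA := h.neB
  neB := h.neA
  dis := h.dis.symm
  nul := by rw [union_comm]; exact h.nul
  mpA := h.mpB
  mpB := h.mpA
  cpt := by
    obtain ⟨K, KA, KB, τ, h1, h2, h3, h4, h5, h6, h7, h8⟩ := h.cpt
    refine ⟨K, KB, KA, τ, h1, h2, h5, h6, h3, h4, h7, fun x hx => ?_⟩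
    obtain ⟨γ, hγ⟩ := h8 x hx
    refine ⟨γ, ?_⟩
    rcases hγ with hγ | hγ | hγ
    · exact Or.inl hγ
    · exact Or.inr (Or.inr hγ)
    · exact Or.inr (Or.inl hγ)

/-- BDX. -/
theorem hBDX (hPD3 : Pool.Agent.Helper86.QA.StPD3) (hZS1 : Pool.Agent.Helper88.QT.StZS1)
    (hZS2 : Pool.Agent.Helper88.QT.StZS2) (hANB : Pool.Agent.Helper85.QT.StANB)
    (hBND : Pool.Agent.Helper85.QT.StBND) (hSMR : Pool.Agent.Helper88.QT.StSMR) :
    Pool.Agent.Helper88.QT.StBDX := by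
  intro a0 ha0
  obtain ⟨CB, m1, hCB, hBn⟩ := hBND cz (1 / 10 ^ 7) a0 (by norm_num [cz]) (by norm_num) ha0
  refine ⟨2 * CB, max 21000 m1, by linarith, le_trans (by norm_num) (le_max_left _ _), ?_⟩
  intro Γ _ f α m C3 r A B lam M G φ μ μ0 hP hm hQ
  have hm1 : (21000 : ℝ) ≤ m := le_trans (le_max_left _ _) hm
  have hm2 : m1 ≤ m := le_trans (le_max_right _ _) hm
  obtain ⟨-, -, -, -, hmM, -, hMtau, hlm, -, htau, -, -, -, hff, -⟩ :=
    hANB Γ r A B α lam M G m φ C3 hP.an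
  have hl : ‖lam‖ ≤ 1 / 3200 := by
    have h1 : ‖lam‖ * 21000 ≤ ‖lam‖ * m := mul_le_mul_of_nonneg_left hm1 (norm_nonneg _)
    have h2 := Real.pi_lt_d2
    linarith
  have hmt : m ≤ 2 * Real.pi * lam.re / ‖lam‖ ^ 2 := by
    rw [← htau]
    linarith
  have hDT : DTub r α lam cz := by
    intro g x hx h1 h2
    refine hZS1 Γ r A B α lam M G m φ C3 hP.an x hx g ?_ ?_
    · unfold cz at h1; linarith
    · unfold cz at h2; linarith
  have hEB : EBal r lam cz (1 / 10 ^ 7) := by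
    intro x hx h1 γ hγ z hz hz2
    exact (hZS2 Γ r A B α lam M G m φ C3 hP.an (by linarith) (by linarith)).2 x hx h1 γ hγ z hz hz2
  have hmu : ‖μ0‖ ≤ 1 := by
    have hw : (((m / 2 : ℝ) : ℂ) * Complex.I) ∈ Sm m := by
      constructor
      · simp; linarith
      · simp; linarith
    have h1 := hP.co.aff _ hw
    have h2 := (hff _ hw).2.2
    have h3 := congrArg norm h1
    rw [norm_mul, norm_mul, RCLike.norm_conj] at h3
    have h4 := mul_right_cancel₀ (norm_ne_zero_iff.2 h2) h3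
    rw [← h4]
    exact hP.co.le _
  obtain ⟨C, hC⟩ := hP.cj
  obtain ⟨-, hsum, hent⟩ := hSMR Γ (f 0) r C hQ hC
  have h1 : 1 ≤ ent (f 0) := hent A B hP.an.kd
  refine ⟨hl, hmt, hDT, hmu, h1, fun h2 => ?_⟩
  obtain ⟨-, DA, hDA⟩ := hPD3 Γ r A B hP.an.kd
  obtain ⟨-, DB, hDB⟩ := hPD3 Γ r B A (bdx_symm hP.an.kd)
  obtain ⟨F, F', σ, τ, hF, hF', har⟩ := hP.ar
  obtain ⟨i1, i2⟩ := har DA DB hDA hDB
  have h3 := hBn Γ r σ τ A B F F' α lam M G m φ C3 hP.an hm2 hDT hEB hF hF' DA DB hDA hDB i1 i2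
    (1 + ent (f 0) / 2) (by linarith) (by linarith) (hsum _ (by linarith) (by linarith))
  have h4 : CB / (2 - (1 + ent (f 0) / 2)) = 2 * CB / (2 - ent (f 0)) := by
    have h5 : (2 - ent (f 0)) ≠ 0 := by linarith
    have h6 : (2 - (1 + ent (f 0) / 2)) = (2 - ent (f 0)) / 2 := by ring
    rw [h6]
    field_simp
  rwa [h4] at h3

end Pool.Agent.Helper98.QT
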