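import Pool.Agent.Helper88.QT.St3
import Pool.Agent.Helper85.QT.St1

/-!
# Project QT, module CNT: from the exponential sum to counting
-/

set_option autoImplicit false

open MeasureTheory Matrix Set Topology Filter
open scoped ENNReal ComplexConjugate

namespace Pool.Agent.Helper98.QT

open Pool.Agent.Helper88.QT Pool.Agent.Helper85.QT Pool.Agent.Helper86.QA
open Pool.Agent.Helper35.PM (classes len)

lemma cnt_mono {Γ : Type} [Group Γ] {f : ℂ → Γ →* SL} {x : ConjClasses Γ} {u v : ℝ}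
    (h : GradLE f x u) (huv : u ≤ v) : GradLE f x v := by
  obtain ⟨L, h1, h2, h3⟩ := h
  exact ⟨L, h1, h2, h3.trans huv⟩

/-- CNT. -/
theorem hCNT : Pool.Agent.Helper88.QT.StCNT := by
  classical
  intro Γ _ f E W κ c a s h δ θ C1 C2 hfin ha hc hκ hs hδ hδh hθ hE hG hsum
  have hhd : 0 < h - δ := by linarith
  refine ⟨|C1| / (h - δ) + |C2|, fun T hT => ?_⟩
  have hT0 : (0 : ℝ) ≤ T := by linarith
  set S0 : Set (ConjClasses Γ) :=
    {x | x ∈ classes (f 0) T ∧ x ∉ E ∧ ¬ GradLE f x (θ * T)} with hS0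
  have hS0f : S0.Finite := (hfin T).subset fun x hx => hx.1
  have hsub : {x : ConjClasses Γ | x ∈ classes (f 0) T ∧ ¬ GradLE f x (θ * T)} ⊆
      {x : ConjClasses Γ | x ∈ classes (f 0) T ∧ x ∈ E} ∪ S0 := by
    intro x hx
    by_cases hxE : x ∈ E
    · exact Or.inl ⟨hx.1, hxE⟩
    · exact Or.inr ⟨hx.1, hxE, hx.2⟩
  have hEf : {x : ConjClasses Γ | x ∈ classes (f 0) T ∧ x ∈ E}.Finite :=
    (hfin T).subset fun x hx => hx.1
  have h1 : ({x : ConjClasses Γ | x ∈ classes (f 0) T ∧ ¬ GradLE f x (θ * T)}.ncard : ℝ) ≤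
      ({x : ConjClasses Γ | x ∈ classes (f 0) T ∧ x ∈ E}.ncard : ℝ) + (S0.ncard : ℝ) := by
    have h2 := (ncard_le_ncard hsub (hEf.union hS0f)).trans (ncard_union_le _ _)
    exact_mod_cast h2
  have hexp : (h - δ) * T ≤ Real.exp ((h - δ) * T) := by
    have := Real.add_one_le_exp ((h - δ) * T)
    linarith
  -- the exceptional classes
  have hA : ({x : ConjClasses Γ | x ∈ classes (f 0) T ∧ x ∈ E}.ncard : ℝ) ≤
      |C1| / (h - δ) * Real.exp ((h - δ) * T) := by
    calc ({x : ConjClasses Γ | x ∈ classes (f 0) T ∧ x ∈ E}.ncard : ℝ) ≤ C1 * T := hE T hT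
      _ ≤ |C1| * T := mul_le_mul_of_nonneg_right (le_abs_self C1) hT0
      _ = |C1| / (h - δ) * ((h - δ) * T) := by field_simp
      _ ≤ |C1| / (h - δ) * Real.exp ((h - δ) * T) :=
        mul_le_mul_of_nonneg_left hexp (by positivity)
  -- the other classes
  have hpt : ∀ x ∈ S0, Real.exp (-((h - 2 * δ) * T)) ≤ Real.exp (a * W x - s * len (f 0) x) := by
    intro x hx
    obtain ⟨hx1, hx2, hx3⟩ := hx
    have hlen : len (f 0) x ≤ T := hx1
    have h3 : θ * T < κ * len (f 0) x + c * W x := by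
      by_contra hcon
      exact hx3 (cnt_mono (hG x hx2) (not_lt.1 hcon))
    have h4 : κ * len (f 0) x ≤ κ * T := mul_le_mul_of_nonneg_left hlen hκ
    have h5 : (κ + c * (s - h + 2 * δ) / a) * T ≤ θ * T := mul_le_mul_of_nonneg_right hθ hT0
    have h6 : c * (s - h + 2 * δ) / a * T < c * W x := by nlinarith
    have h7 : (s - h + 2 * δ) / a * T < W x := by
      have : c * ((s - h + 2 * δ) / a * T) < c * W x := by
        calc c * ((s - h + 2 * δ) / a * T) = c * (s - h + 2 * δ) / a * T := by ring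
          _ < c * W x := h6
      exact lt_of_mul_lt_mul_left this hc.le
    have h8 : (s - h + 2 * δ) * T < a * W x := by
      calc (s - h + 2 * δ) * T = a * ((s - h + 2 * δ) / a * T) := by field_simp
        _ < a * W x := mul_lt_mul_of_pos_left h7 ha
    have h9 : s * len (f 0) x ≤ s * T := mul_le_mul_of_nonneg_left hlen hs
    apply Real.exp_le_exp.2
    nlinarith
  have hB : (S0.ncard : ℝ) ≤ |C2| * Real.exp ((h - δ) * T) := by
    have h3 := hsum hS0f.toFinset fun x hx => (hS0f.mem_toFinset.1 hx).2.1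
    have h4 : (S0.ncard : ℝ) * Real.exp (-((h - 2 * δ) * T)) ≤ C2 := by
      refine le_trans ?_ h3
      calc (S0.ncard : ℝ) * Real.exp (-((h - 2 * δ) * T))
          = ∑ x ∈ hS0f.toFinset, Real.exp (-((h - 2 * δ) * T)) := by
            rw [Finset.sum_const, nsmul_eq_mul, ncard_eq_toFinset_card S0 hS0f]
        _ ≤ ∑ x ∈ hS0f.toFinset, Real.exp (a * W x - s * len (f 0) x) :=
          Finset.sum_le_sum fun x hx => hpt x (hS0f.mem_toFinset.1 hx)
    have h5 : (S0.ncard : ℝ) ≤ C2 * Real.exp ((h - 2 * δ) * T) := by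
      have h6 := mul_le_mul_of_nonneg_right h4 (Real.exp_pos ((h - 2 * δ) * T)).le
      rwa [mul_assoc, ← Real.exp_add, neg_add_cancel, Real.exp_zero, mul_one] at h6
    refine h5.trans ?_
    calc C2 * Real.exp ((h - 2 * δ) * T) ≤ |C2| * Real.exp ((h - 2 * δ) * T) :=
          mul_le_mul_of_nonneg_right (le_abs_self C2) (Real.exp_pos _).le
      _ ≤ |C2| * Real.exp ((h - δ) * T) := by
          apply mul_le_mul_of_nonneg_left _ (abs_nonneg C2)
          apply Real.exp_le_exp.2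
          nlinarith
  calc ({x : ConjClasses Γ | x ∈ classes (f 0) T ∧ ¬ GradLE f x (θ * T)}.ncard : ℝ)
      ≤ |C1| / (h - δ) * Real.exp ((h - δ) * T) + |C2| * Real.exp ((h - δ) * T) :=
        h1.trans (add_le_add hA hB)
    _ = (|C1| / (h - δ) + |C2|) * Real.exp ((h - δ) * T) := by ring

end Pool.Agent.Helper98.QT
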